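import Pool.Agent.H137R2.Weak.Stg
set_option autoImplicit false

/-! The stage lemma for pairs of subgroups and its two iterations. -/

open scoped Classical
set_option linter.unusedSectionVars false
set_option linter.unusedVariables false

namespace H137.Weak

open H137.PFR H137.TwoPow

variable {Ω : Type*} [Fintype Ω] {G : Type*} [AddCommGroup G]

/-- entropy of `X` modulo `N` -/
noncomputable def hh (w : Ω → ℝ) (X : Ω → G) (N : AddSubgroup G) : ℝ :=
  Hg w (fun ω => (X ω : G ⧸ N))

/-- Ruzsa doubling of `X` modulo `N` -/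
noncomputable def kk (w : Ω → ℝ) (X : Ω → G) (N : AddSubgroup G) : ℝ :=
  kap w (fun ω => (X ω : G ⧸ N))

variable {w : Ω → ℝ}

theorem hh_nonneg (hw : Law w) (X : Ω → G) (N : AddSubgroup G) : 0 ≤ hh w X N := Hg_nonneg hw _

theorem kk_nonneg (hw : Law w) (X : Ω → G) (N : AddSubgroup G) : 0 ≤ kk w X N := kap_nonneg hw _

theorem hh_anti (hw : Law w) (X : Ω → G) {N M : AddSubgroup G} (h : N ≤ M) :
    hh w X M ≤ hh w X N := by
  refine Hg_le_of hw fun ω ω' h1 => ?_
  rw [QuotientAddGroup.eq] at h1 ⊢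
  exact h h1

theorem kk_anti (hw : Law w) (X : Ω → G) {N M : AddSubgroup G} (h : N ≤ M) :
    kk w X M ≤ kk w X N := by
  have h1 := kap_hom hw (fun ω => (X ω : G ⧸ N))
    (QuotientAddGroup.map N M (AddMonoidHom.id G) (fun x hx => h hx))
  exact h1

theorem kk_le (hw : Law w) (X : Ω → G) (N : AddSubgroup G) : kk w X N ≤ kap w X :=
  kap_hom hw X (QuotientAddGroup.mk' N)

theorem mk_mk_eq (N : AddSubgroup G) (W : AddSubgroup (G ⧸ N)) (x y : G) :
    (((x : G ⧸ N) : (G ⧸ N) ⧸ W) = ((y : G ⧸ N) : (G ⧸ N) ⧸ W)) ↔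
      ((x : G ⧸ W.comap (QuotientAddGroup.mk' N)) = (y : G ⧸ W.comap (QuotientAddGroup.mk' N))) := by
  rw [QuotientAddGroup.eq, QuotientAddGroup.eq, AddSubgroup.mem_comap, map_add, map_neg]
  rfl

theorem Hg_mk_mk (X : Ω → G) (N : AddSubgroup G) (W : AddSubgroup (G ⧸ N)) :
    Hg w (fun ω => (((X ω : G ⧸ N)) : (G ⧸ N) ⧸ W)) =
      hh w X (W.comap (QuotientAddGroup.mk' N)) :=
  Hg_congr fun ω ω' => mk_mk_eq N W _ _

theorem kap_mk_mk (X : Ω → G) (N : AddSubgroup G) (W : AddSubgroup (G ⧸ N)) :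
    kap w (fun ω => (((X ω : G ⧸ N)) : (G ⧸ N) ⧸ W)) =
      kk w X (W.comap (QuotientAddGroup.mk' N)) := by
  have h1 : Hg (prod w w) (fun p : Ω × Ω => ((((X p.1 : G ⧸ N)) : (G ⧸ N) ⧸ W)) -
      (((X p.2 : G ⧸ N)) : (G ⧸ N) ⧸ W)) =
      Hg (prod w w) (fun p : Ω × Ω => (X p.1 : G ⧸ W.comap (QuotientAddGroup.mk' N)) -
        (X p.2 : G ⧸ W.comap (QuotientAddGroup.mk' N))) :=
    Hg_congr fun p q => mk_mk_eq N W (X p.1 - X p.2) (X q.1 - X q.2)
  unfold kk kap
  rw [h1, Hg_mk_mk]
  rfl

/-- entropy is at most the entropy modulo a finite subgroup plus the logarithm of its order -/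
theorem Hg_le_mod (hw : Law w) (X : Ω → G) (W : AddSubgroup G) [Finite W] :
    Hg w X ≤ Hg w (fun ω => (X ω : G ⧸ W)) + Real.log (Nat.card W) := by
  have : Fintype W := Fintype.ofFinite W
  obtain ⟨C, hC⟩ := exists_code hw (fun ω => (X ω : G ⧸ W))
  have hunit : Law (fun _ : Unit => (1 : ℝ)) := ⟨fun _ => zero_le_one, by simp⟩
  have h3 := Hg_chain hunit hw (fun p : Unit × Ω => X p.2) C
  have h4 : Hg (prod (fun _ : Unit => (1 : ℝ)) w) (fun p => (X p.2, C p.2)) =
      Hg w (fun ω => (X ω, C ω)) := Hg_snd hunit hw (fun ω => (X ω, C ω))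
  have g1 : Hg w C = Hg w (fun ω => (X ω : G ⧸ W)) := (Hg_congr hC).symm
  have g3 : Hg w (fun ω => (X ω, C ω)) = Hg w X :=
    Hg_congr fun ω ω' => by
      simp only [Prod.mk.injEq, ← hC]
      constructor
      · intro h
        exact h.1
      · intro h
        exact ⟨h, by rw [h]⟩
  rw [h4, g1, g3] at h3
  have hp : Law (push w C) := law_push hw C
  have h5 : ∑ c, push w C c * Hg (prod (fun _ : Unit => (1 : ℝ)) (cw w C c)) (fun p => X p.2.1) ≤
      ∑ c, push w C c * Real.log (Nat.card W) := by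
    refine Finset.sum_le_sum fun c _ => ?_
    by_cases hc : push w C c = 0
    · rw [hc, zero_mul, zero_mul]
    · refine mul_le_mul_of_nonneg_left ?_ (hp.1 c)
      have hwc := law_cw hw C hc
      have h6 : Hg (prod (fun _ : Unit => (1 : ℝ)) (cw w C c)) (fun p => X p.2.1) =
          Hg (cw w C c) (fun ω => X ω.1) := Hg_snd hunit hwc (fun ω => X ω.1)
      rw [h6]
      obtain ⟨ω₀⟩ := law_nonempty hwc
      have hmem : ∀ ω : {ω : Ω // C ω = c}, X ω.1 - X ω₀.1 ∈ W := by
        intro ω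
        have h1 : (X ω₀.1 : G ⧸ W) = X ω.1 := (hC _ _).2 (ω₀.2.trans ω.2.symm)
        rw [QuotientAddGroup.eq] at h1
        have h2 : X ω.1 - X ω₀.1 = -X ω₀.1 + X ω.1 := by abel
        rw [h2]
        exact h1
      have h7 : Hg (cw w C c) (fun ω => X ω.1) =
          Hg (cw w C c) (fun ω => (⟨X ω.1 - X ω₀.1, hmem ω⟩ : W)) := by
        refine Hg_congr fun ω ω' => ?_
        rw [Subtype.ext_iff]
        change _ ↔ X ω.1 - X ω₀.1 = X ω'.1 - X ω₀.1
        exact sub_left_inj.symm
      rw [h7, Hg_eq_H]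
      have h8 := ent_le_log_card (law_push hwc (fun ω => (⟨X ω.1 - X ω₀.1, hmem ω⟩ : W)))
        Finset.univ (fun x hx => absurd (Finset.mem_univ x) hx)
      rw [Finset.card_univ, ← Nat.card_eq_fintype_card] at h8
      exact h8
  rw [← Finset.sum_mul, hp.2, one_mul] at h5
  linarith

section pair

variable {N M : AddSubgroup G}

theorem card_map_mk (N M : AddSubgroup G) :
    Nat.card (M.map (QuotientAddGroup.mk' N)) = N.relIndex M := by
  rw [← AddSubgroup.relIndex_ker, QuotientAddGroup.ker_mk']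

theorem comap_map_mk (h : N ≤ M) :
    (M.map (QuotientAddGroup.mk' N)).comap (QuotientAddGroup.mk' N) = M := by
  rw [AddSubgroup.comap_map_eq, QuotientAddGroup.ker_mk', sup_eq_left]
  exact h

theorem hh_le_add_log (hw : Law w) (X : Ω → G) (h : N ≤ M) (hfin : N.relIndex M ≠ 0) :
    hh w X N ≤ hh w X M + Real.log (N.relIndex M) := by
  have hc := card_map_mk N M
  have : Finite (M.map (QuotientAddGroup.mk' N)) :=
    Nat.finite_of_card_ne_zero (by rw [hc]; exact hfin)
  have h1 := Hg_le_mod hw (fun ω => (X ω : G ⧸ N)) (M.map (QuotientAddGroup.mk' N))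
  rw [Hg_mk_mk, comap_map_mk h, hc] at h1
  exact h1

/-- the stage lemma for a pair `N ≤ M` with `2 M ≤ N` -/
theorem stage_pair (hw : Law w) (X : Ω → G) (h : N ≤ M) (hfin : N.relIndex M ≠ 0)
    (h2 : ∀ x ∈ M, x + x ∈ N) :
    ∃ N' : AddSubgroup G, N ≤ N' ∧ N' ≤ M ∧
      2 * hh w X N' + Real.log (N.relIndex N') ≤
        hh w X N + hh w X M + 46 * (kk w X N - kk w X M) := by
  have hc := card_map_mk N M
  have : Finite (M.map (QuotientAddGroup.mk' N)) :=
    Nat.finite_of_card_ne_zero (by rw [hc]; exact hfin)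
  have hW : ∀ x ∈ M.map (QuotientAddGroup.mk' N), x + x = 0 := by
    intro x hx
    obtain ⟨m, hm, rfl⟩ := AddSubgroup.mem_map.1 hx
    rw [← map_add]
    exact (QuotientAddGroup.eq_zero_iff (N := N) (m + m)).2 (h2 m hm)
  obtain ⟨W', hW', hst⟩ := stage hw (fun ω => (X ω : G ⧸ N)) (M.map (QuotientAddGroup.mk' N)) hW
  rw [Hg_mk_mk, Hg_mk_mk, kap_mk_mk, comap_map_mk h] at hst
  refine ⟨W'.comap (QuotientAddGroup.mk' N), ?_, ?_, ?_⟩
  · intro x hx
    rw [AddSubgroup.mem_comap]
    have h1 : QuotientAddGroup.mk' N x = 0 := (QuotientAddGroup.eq_zero_iff (N := N) x).2 hx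
    rw [h1]
    exact W'.zero_mem
  · have h1 := AddSubgroup.comap_mono (f := QuotientAddGroup.mk' N) hW'
    rw [comap_map_mk h] at h1
    exact h1
  · have h1 : N.relIndex (W'.comap (QuotientAddGroup.mk' N)) = Nat.card W' := by
      rw [← card_map_mk, AddSubgroup.map_comap_eq_self_of_surjective
        (QuotientAddGroup.mk'_surjective N)]
    rw [h1]
    exact hst

/-- downward iteration -/
theorem iter_down (hw : Law w) (X : Ω → G) (h2 : ∀ x ∈ M, x + x ∈ N) (n : ℕ) :
    ∀ M' : AddSubgroup G, N ≤ M' → M' ≤ M → N.relIndex M' ≠ 0 → N.relIndex M' ≤ n →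
      ∃ P : AddSubgroup G, N ≤ P ∧ P ≤ M' ∧
        Real.log (N.relIndex P) + hh w X P - hh w X N ≤ 92 * (kk w X N - kk w X P) ∧
        hh w X P - hh w X M' ≤ Real.log (N.relIndex M') + hh w X M' - hh w X N ∧
        hh w X P - hh w X M' ≤ 46 * (kk w X N - kk w X M') := by
  induction n with
  | zero =>
    intro M' _ _ h0 hn
    exact absurd (Nat.le_zero.1 hn) h0
  | succ n ih =>
    intro M' hN hM h0 hn
    have hlog := hh_le_add_log hw X hN h0
    have hk := kk_anti hw X hN
    by_cases hcase : Real.log (N.relIndex M') + hh w X M' - hh w X N ≤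
        92 * (kk w X N - kk w X M')
    · exact ⟨M', hN, le_refl _, hcase, by linarith, by linarith⟩
    · push Not at hcase
      obtain ⟨M'', hN'', hM'', hst⟩ := stage_pair hw X hN h0 (fun x hx => h2 x (hM hx))
      have hne : M'' ≠ M' := by
        rintro rfl
        linarith
      have hmul := AddSubgroup.relIndex_mul_relIndex N M'' M' hN'' hM''
      have h0'' : N.relIndex M'' ≠ 0 := by
        intro h
        rw [h, zero_mul] at hmul
        exact h0 hmul.symm
      have h1 : M''.relIndex M' ≠ 1 := by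
        intro h
        rw [AddSubgroup.relIndex_eq_one] at h
        exact hne (le_antisymm hM'' h)
      have h1' : M''.relIndex M' ≠ 0 := by
        intro h
        rw [h, mul_zero] at hmul
        exact h0 hmul.symm
      have hlt : N.relIndex M'' ≤ n := by
        have h3 : 2 ≤ M''.relIndex M' := by omega
        have h4 : N.relIndex M'' * 2 ≤ N.relIndex M' := by
          rw [← hmul]
          exact Nat.mul_le_mul_left _ h3
        have h5 : 0 < N.relIndex M'' := Nat.pos_of_ne_zero h0''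
        omega
      obtain ⟨P, hP1, hP2, hP3, hP4, hP5⟩ := ih M'' hN'' (hM''.trans hM) h0'' hlt
      have hk2 := kk_anti hw X hM''
      refine ⟨P, hP1, hP2.trans hM'', hP3, ?_, ?_⟩ <;> linarith

/-- upward iteration -/
theorem iter_up (hw : Law w) (X : Ω → G) (h2 : ∀ x ∈ M, x + x ∈ N) (n : ℕ) :
    ∀ N' : AddSubgroup G, N ≤ N' → N' ≤ M → N'.relIndex M ≠ 0 → N'.relIndex M ≤ n →
      ∃ P : AddSubgroup G, N' ≤ P ∧ P ≤ M ∧
        hh w X P - hh w X M ≤ 92 * (kk w X P - kk w X M) ∧
        Real.log (N'.relIndex P) ≤ 3 / 2 * (hh w X N' - hh w X M) := by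
  induction n with
  | zero =>
    intro N' _ _ h0 hn
    exact absurd (Nat.le_zero.1 hn) h0
  | succ n ih =>
    intro N' hN hM h0 hn
    have hanti := hh_anti hw X hM
    by_cases hcase : hh w X N' - hh w X M ≤ 92 * (kk w X N' - kk w X M)
    · refine ⟨N', le_refl _, hM, hcase, ?_⟩
      rw [AddSubgroup.relIndex_self, Nat.cast_one, Real.log_one]
      linarith
    · push Not at hcase
      obtain ⟨N'', hN'', hM'', hst⟩ := stage_pair hw X hM h0 (fun x hx => hN (h2 x hx))
      have hne : N'' ≠ N' := by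
        rintro rfl
        rw [AddSubgroup.relIndex_self, Nat.cast_one, Real.log_one] at hst
        linarith
      have hmul := AddSubgroup.relIndex_mul_relIndex N' N'' M hN'' hM''
      have h0a : N'.relIndex N'' ≠ 0 := by
        intro h
        rw [h, zero_mul] at hmul
        exact h0 hmul.symm
      have h0b : N''.relIndex M ≠ 0 := by
        intro h
        rw [h, mul_zero] at hmul
        exact h0 hmul.symm
      have h1 : N'.relIndex N'' ≠ 1 := by
        intro h
        rw [AddSubgroup.relIndex_eq_one] at h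
        exact hne (le_antisymm h hN'')
      have hlt : N''.relIndex M ≤ n := by
        have h3 : 2 ≤ N'.relIndex N'' := by omega
        have h4 : 2 * N''.relIndex M ≤ N'.relIndex M := by
          rw [← hmul]
          exact Nat.mul_le_mul_right _ h3
        have h5 : 0 < N''.relIndex M := Nat.pos_of_ne_zero h0b
        omega
      obtain ⟨P, hP1, hP2, hP3, hP4⟩ := ih N'' (hN.trans hN'') hM'' h0b hlt
      have hmul2 := AddSubgroup.relIndex_mul_relIndex N' N'' P hN'' hP1
      have h0c : N''.relIndex P ≠ 0 := by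
        intro h
        have h6 := AddSubgroup.relIndex_mul_relIndex N'' P M hP1 hP2
        rw [h, zero_mul] at h6
        exact h0b h6.symm
      have hanti2 := hh_anti hw X hM''
      refine ⟨P, hN''.trans hP1, hP2, hP3, ?_⟩
      rw [← hmul2, Nat.cast_mul, Real.log_mul (by exact_mod_cast h0a) (by exact_mod_cast h0c)]
      linarith

end pair

end H137.Weak
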