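import Pool.Agent.H137R2.TwoPow.Stage
set_option autoImplicit false

/-! Entropy of random variables on a finite sample space with values in an arbitrary type. -/

open scoped Classical
set_option linter.unusedSectionVars false
set_option linter.unusedVariables false

namespace H137.Weak

open H137.PFR H137.TwoPow

variable {Ω Ω' Ω'' : Type*} [Fintype Ω] [Fintype Ω'] [Fintype Ω''] {α β γ δ : Type*}

/-- entropy of a random variable with values in an arbitrary type -/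
noncomputable def Hg (w : Ω → ℝ) (X : Ω → α) : ℝ := ∑ ω, w ω * (-Real.log (push w X (X ω)))

theorem Hg_eq_H [Fintype α] (w : Ω → ℝ) (X : Ω → α) : Hg w X = H w X := by
  unfold Hg H ent
  have h1 : ∀ ω, w ω * (-Real.log (push w X (X ω))) =
      ∑ a, (if X ω = a then w ω else 0) * (-Real.log (push w X a)) := by
    intro ω
    rw [Finset.sum_eq_single (X ω)]
    · rw [if_pos rfl]
    · intro b _ hb
      rw [if_neg (Ne.symm hb), zero_mul]
    · intro h
      exact absurd (Finset.mem_univ _) h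
  simp_rw [h1]
  rw [Finset.sum_comm]
  refine Finset.sum_congr rfl fun a _ => ?_
  rw [← Finset.sum_mul]
  unfold Real.negMulLog
  have h2 : ∑ ω, (if X ω = a then w ω else 0) = push w X a := rfl
  rw [h2]
  ring

theorem push_congr {w : Ω → ℝ} {X : Ω → α} {Y : Ω → β} (h : ∀ ω ω', X ω = X ω' ↔ Y ω = Y ω')
    (ω : Ω) : push w X (X ω) = push w Y (Y ω) := by
  unfold push
  refine Finset.sum_congr rfl fun ω' _ => ?_
  by_cases h1 : X ω' = X ω
  · rw [if_pos h1, if_pos ((h _ _).1 h1)]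
  · rw [if_neg h1, if_neg (fun h2 => h1 ((h _ _).2 h2))]

theorem Hg_congr {w : Ω → ℝ} {X : Ω → α} {Y : Ω → β} (h : ∀ ω ω', X ω = X ω' ↔ Y ω = Y ω') :
    Hg w X = Hg w Y := by
  unfold Hg
  refine Finset.sum_congr rfl fun ω _ => ?_
  rw [push_congr h]

theorem exists_code {w : Ω → ℝ} (hw : Law w) (X : Ω → α) :
    ∃ X' : Ω → Ω, ∀ ω ω', X ω = X ω' ↔ X' ω = X' ω' := by
  have : Nonempty Ω := law_nonempty hw
  refine ⟨fun ω => Function.invFun X (X ω), fun ω ω' => ⟨fun h => ?_, fun h => ?_⟩⟩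
  · simp only [h]
  · have h1 := Function.invFun_eq (f := X) ⟨ω, rfl⟩
    have h2 := Function.invFun_eq (f := X) ⟨ω', rfl⟩
    simp only at h
    rw [← h1, ← h2, h]

theorem Hg_le_of {w : Ω → ℝ} (hw : Law w) {X : Ω → α} {Y : Ω → β}
    (h : ∀ ω ω', X ω = X ω' → Y ω = Y ω') : Hg w Y ≤ Hg w X := by
  obtain ⟨X', hX⟩ := exists_code hw X
  obtain ⟨Y', hY⟩ := exists_code hw Y
  rw [Hg_congr hX, Hg_congr hY, Hg_eq_H, Hg_eq_H]
  exact H_le_of hw fun ω ω' h1 => (hY _ _).1 (h _ _ ((hX _ _).2 h1))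

theorem Hg_sub_of {w : Ω → ℝ} (hw : Law w) {X : Ω → α} {Y : Ω → β} {W : Ω → δ} {Z : Ω → γ}
    (hX : ∀ ω ω', X ω = X ω' → Z ω = Z ω') (hY : ∀ ω ω', Y ω = Y ω' → Z ω = Z ω')
    (hW : ∀ ω ω', X ω = X ω' → Y ω = Y ω' → W ω = W ω') :
    Hg w W + Hg w Z ≤ Hg w X + Hg w Y := by
  obtain ⟨X', hX'⟩ := exists_code hw X
  obtain ⟨Y', hY'⟩ := exists_code hw Y
  obtain ⟨W', hW'⟩ := exists_code hw W
  obtain ⟨Z', hZ'⟩ := exists_code hw Z
  rw [Hg_congr hX', Hg_congr hY', Hg_congr hW', Hg_congr hZ', Hg_eq_H, Hg_eq_H, Hg_eq_H, Hg_eq_H]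
  exact H_sub_of hw (fun ω ω' h => (hZ' _ _).1 (hX _ _ ((hX' _ _).2 h)))
    (fun ω ω' h => (hZ' _ _).1 (hY _ _ ((hY' _ _).2 h)))
    (fun ω ω' h h2 => (hW' _ _).1 (hW _ _ ((hX' _ _).2 h) ((hY' _ _).2 h2)))

theorem Hg_add_of {w : Ω → ℝ} (hw : Law w) {X : Ω → α} {Y : Ω → β} {W : Ω → δ}
    (hW : ∀ ω ω', X ω = X ω' → Y ω = Y ω' → W ω = W ω') :
    Hg w W ≤ Hg w X + Hg w Y := by
  obtain ⟨X', hX'⟩ := exists_code hw X
  obtain ⟨Y', hY'⟩ := exists_code hw Y
  obtain ⟨W', hW'⟩ := exists_code hw W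
  rw [Hg_congr hX', Hg_congr hY', Hg_congr hW', Hg_eq_H, Hg_eq_H, Hg_eq_H]
  exact H_add_of hw (fun ω ω' h h2 => (hW' _ _).1 (hW _ _ ((hX' _ _).2 h) ((hY' _ _).2 h2)))

theorem Hg_nonneg {w : Ω → ℝ} (hw : Law w) (X : Ω → α) : 0 ≤ Hg w X := by
  obtain ⟨X', hX'⟩ := exists_code hw X
  rw [Hg_congr hX', Hg_eq_H]
  exact H_nonneg hw _

theorem Hg_const {w : Ω → ℝ} (hw : Law w) (X : Ω → α) (h : ∀ ω ω', X ω = X ω') : Hg w X = 0 := by
  rw [Hg_congr (Y := fun _ => ()) (fun ω ω' => ⟨fun _ => rfl, fun _ => h _ _⟩), Hg_eq_H]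
  exact H_unit hw

theorem Hg_prod {w : Ω → ℝ} {w' : Ω' → ℝ} (hw : Law w) (hw' : Law w') (X : Ω → α) (Y : Ω' → β) :
    Hg (prod w w') (fun p => (X p.1, Y p.2)) = Hg w X + Hg w' Y := by
  obtain ⟨X', hX⟩ := exists_code hw X
  obtain ⟨Y', hY⟩ := exists_code hw' Y
  have h1 : Hg (prod w w') (fun p => (X p.1, Y p.2)) =
      Hg (prod w w') (fun p => (X' p.1, Y' p.2)) :=
    Hg_congr fun p q => by simp only [Prod.mk.injEq, hX, hY]
  rw [h1, Hg_congr hX, Hg_congr hY, Hg_eq_H, Hg_eq_H, Hg_eq_H]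
  exact H_prod hw hw' X' Y'

theorem Hg_fst {w : Ω → ℝ} {w' : Ω' → ℝ} (hw : Law w) (hw' : Law w') (X : Ω → α) :
    Hg (prod w w') (fun p => X p.1) = Hg w X := by
  obtain ⟨X', hX⟩ := exists_code hw X
  have h1 : Hg (prod w w') (fun p => X p.1) = Hg (prod w w') (fun p => X' p.1) :=
    Hg_congr fun p q => hX _ _
  rw [h1, Hg_congr hX, Hg_eq_H, Hg_eq_H]
  exact H_pair_fst hw' X'

theorem Hg_snd {w : Ω → ℝ} {w' : Ω' → ℝ} (hw : Law w) (hw' : Law w') (Y : Ω' → α) :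
    Hg (prod w w') (fun p => Y p.2) = Hg w' Y := by
  obtain ⟨Y', hY⟩ := exists_code hw' Y
  have h1 : Hg (prod w w') (fun p => Y p.2) = Hg (prod w w') (fun p => Y' p.2) :=
    Hg_congr fun p q => hY _ _
  rw [h1, Hg_congr hY, Hg_eq_H, Hg_eq_H]
  exact H_pair_snd hw Y'

theorem Hg_swap {w : Ω → ℝ} {w' : Ω' → ℝ} (hw : Law w) (hw' : Law w') (X : Ω × Ω' → α) :
    Hg (prod w w') X = Hg (prod w' w) (fun p : Ω' × Ω => X (p.2, p.1)) := by
  obtain ⟨X', hX⟩ := exists_code (law_prod hw hw') X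
  have h1 : Hg (prod w' w) (fun p : Ω' × Ω => X (p.2, p.1)) =
      Hg (prod w' w) (fun p : Ω' × Ω => X' (p.2, p.1)) := Hg_congr fun p q => hX _ _
  rw [h1, Hg_congr hX, Hg_eq_H, Hg_eq_H]
  exact H_swap X'

theorem Hg_13 {w : Ω → ℝ} {w' : Ω' → ℝ} {w'' : Ω'' → ℝ} (hw : Law w) (hw' : Law w')
    (hw'' : Law w'') (X : Ω × Ω'' → α) :
    Hg (prod (prod w w') w'') (fun p => X (p.1.1, p.2)) = Hg (prod w w'') X := by
  obtain ⟨X', hX⟩ := exists_code (law_prod hw hw'') X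
  have h1 : Hg (prod (prod w w') w'') (fun p => X (p.1.1, p.2)) =
      Hg (prod (prod w w') w'') (fun p => X' (p.1.1, p.2)) := Hg_congr fun p q => hX _ _
  rw [h1, Hg_congr hX, Hg_eq_H, Hg_eq_H]
  exact H_triple_13 hw' X'

theorem Hg_23 {w : Ω → ℝ} {w' : Ω' → ℝ} {w'' : Ω'' → ℝ} (hw : Law w) (hw' : Law w')
    (hw'' : Law w'') (X : Ω' × Ω'' → α) :
    Hg (prod (prod w w') w'') (fun p => X (p.1.2, p.2)) = Hg (prod w' w'') X := by
  obtain ⟨X', hX⟩ := exists_code (law_prod hw' hw'') X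
  have h1 : Hg (prod (prod w w') w'') (fun p => X (p.1.2, p.2)) =
      Hg (prod (prod w w') w'') (fun p => X' (p.1.2, p.2)) := Hg_congr fun p q => hX _ _
  rw [h1, Hg_congr hX, Hg_eq_H, Hg_eq_H]
  exact H_triple_23 hw X'

theorem Hg_12 {w : Ω → ℝ} {w' : Ω' → ℝ} {w'' : Ω'' → ℝ} (hw : Law w) (hw' : Law w')
    (hw'' : Law w'') (X : Ω × Ω' → α) :
    Hg (prod (prod w w') w'') (fun p => X p.1) = Hg (prod w w') X :=
  Hg_fst (law_prod hw hw') hw'' X

theorem Hg_prod3 {w : Ω → ℝ} {w' : Ω' → ℝ} {w'' : Ω'' → ℝ} (hw : Law w) (hw' : Law w')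
    (hw'' : Law w'') (X : Ω → α) (Y : Ω' → β) (Z : Ω'' → γ) :
    Hg (prod (prod w w') w'') (fun p => ((X p.1.1, Y p.1.2), Z p.2)) =
      Hg w X + Hg w' Y + Hg w'' Z := by
  rw [Hg_prod (law_prod hw hw') hw'' (fun q : Ω × Ω' => (X q.1, Y q.2)) Z, Hg_prod hw hw']

/-! ### conditioning -/

/-- conditional weights on a fibre -/
noncomputable def cw (w : Ω → ℝ) (C : Ω → γ) (c : γ) : {ω : Ω // C ω = c} → ℝ :=
  fun ω => w ω.1 / push w C c

theorem push_eq_sum_sub (w : Ω → ℝ) (C : Ω → γ) (c : γ) :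
    push w C c = ∑ ω : {ω : Ω // C ω = c}, w ω.1 := by
  unfold push
  rw [← Finset.sum_filter]
  exact Finset.sum_subtype _ (by simp) _

theorem law_cw {w : Ω → ℝ} (hw : Law w) (C : Ω → γ) {c : γ} (hc : push w C c ≠ 0) :
    Law (cw w C c) := by
  have h0 : 0 ≤ push w C c := by
    unfold push
    exact Finset.sum_nonneg fun ω _ => by split_ifs; exacts [hw.1 ω, le_refl _]
  refine ⟨fun ω => div_nonneg (hw.1 _) h0, ?_⟩
  unfold cw
  rw [← Finset.sum_div, ← push_eq_sum_sub, div_self hc]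

theorem joint_eq {w' : Ω' → ℝ} {w : Ω → ℝ} (F : Ω' × Ω → α) (C : Ω → γ) (a : α) (c : γ)
    (hc : push w C c ≠ 0) :
    push (prod w' w) (fun p => (F p, C p.2)) (a, c) =
      push w C c * push (prod w' (cw w C c)) (fun p => F (p.1, p.2.1)) a := by
  have h0 : push (prod w' w) (fun p => (F p, C p.2)) (a, c) =
      ∑ u, ∑ y, (if (F (u, y), C y) = (a, c) then w' u * w y else 0) := by
    unfold push prod
    rw [Fintype.sum_prod_type]
    refine Finset.sum_congr rfl fun u _ => Finset.sum_congr rfl fun y _ => ?_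
    by_cases h : (F (u, y), C y) = (a, c)
    · rw [if_pos h, if_pos h]
    · rw [if_neg h, if_neg h]
  have h00 : push (prod w' (cw w C c)) (fun p => F (p.1, p.2.1)) a =
      ∑ u, ∑ y : {ω : Ω // C ω = c}, (if F (u, y.1) = a then w' u * (w y.1 / push w C c) else 0) := by
    have h5 : push (prod w' (cw w C c)) (fun p => F (p.1, p.2.1)) a =
        ∑ p : Ω' × {ω : Ω // C ω = c}, (if F (p.1, p.2.1) = a then prod w' (cw w C c) p else 0) :=
      rfl
    rw [h5, Fintype.sum_prod_type]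
    rfl
  rw [h0, h00, Finset.mul_sum]
  refine Finset.sum_congr rfl fun u _ => ?_
  have h1 : ∑ y, (if (F (u, y), C y) = (a, c) then w' u * w y else 0) =
      ∑ y, (if C y = c then (if F (u, y) = a then w' u * w y else 0) else 0) := by
    refine Finset.sum_congr rfl fun y _ => ?_
    by_cases h2 : C y = c <;> by_cases h3 : F (u, y) = a <;> simp [h2, h3]
  rw [h1, ← Finset.sum_filter, Finset.mul_sum]
  have h2 : ∑ y ∈ Finset.univ.filter (fun y => C y = c), (if F (u, y) = a then w' u * w y else 0) =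
      ∑ y : {ω : Ω // C ω = c}, (if F (u, y.1) = a then w' u * w y.1 else 0) :=
    Finset.sum_subtype _ (by simp) _
  rw [h2]
  refine Finset.sum_congr rfl fun y _ => ?_
  by_cases h3 : F (u, y.1) = a
  · rw [if_pos h3, if_pos h3]
    field_simp
  · rw [if_neg h3, if_neg h3, mul_zero]

/-- chain rule on a product space, conditioning on a function of the second coordinate -/
theorem Hg_chain [Fintype γ] {w' : Ω' → ℝ} {w : Ω → ℝ} (hw' : Law w') (hw : Law w)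
    (F : Ω' × Ω → α) (C : Ω → γ) :
    Hg (prod w' w) (fun p => (F p, C p.2)) = Hg w C +
      ∑ c, push w C c * Hg (prod w' (cw w C c)) (fun p => F (p.1, p.2.1)) := by
  obtain ⟨F', hF⟩ := exists_code (law_prod hw' hw) F
  have h1 : Hg (prod w' w) (fun p => (F p, C p.2)) = Hg (prod w' w) (fun p => (F' p, C p.2)) :=
    Hg_congr fun p q => by simp only [Prod.mk.injEq, hF]
  have h2 : ∀ c, Hg (prod w' (cw w C c)) (fun p => F (p.1, p.2.1)) =
      Hg (prod w' (cw w C c)) (fun p => F' (p.1, p.2.1)) := fun c => Hg_congr fun p q => hF _ _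
  have h3 : Hg (prod w' w) (fun p => C p.2) = Hg w C := Hg_snd hw' hw C
  simp only [h1, h2]
  rw [← h3, Hg_eq_H, Hg_eq_H, H_chain (law_prod hw' hw) F' (fun p => C p.2)]
  congr 1
  refine Finset.sum_congr rfl fun c _ => ?_
  have h4 : push (prod w' w) (fun p => C p.2) c = push w C c := by
    rw [push_prod_snd hw' w C]
  rw [h4]
  by_cases hc : push w C c = 0
  · rw [hc, zero_mul, zero_mul]
  · congr 1
    rw [Hg_eq_H]
    unfold H
    congr 1
    funext a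
    unfold cnd
    rw [h4, joint_eq F' C a c hc, mul_div_cancel_left₀ _ hc]

end H137.Weak
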