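import Pool.Agent.H137R2.Weak.Chain
set_option autoImplicit false

/-! Choice of the two subgroups. -/

open scoped Classical
set_option linter.unusedSectionVars false
set_option linter.unusedVariables false

namespace H137.Weak

open H137.PFR H137.TwoPow

variable {Ω : Type*} [Fintype Ω] {G : Type*} [AddCommGroup G] {w : Ω → ℝ}

/-- doubling -/
def dbl (G : Type*) [AddCommGroup G] : G →+ G := AddMonoidHom.id G + AddMonoidHom.id G

theorem dbl_apply (x : G) : dbl G x = x + x := rfl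

theorem hh_bot (X : Ω → G) : hh w X ⊥ = Hg w X := by
  refine Hg_congr fun ω ω' => ?_
  rw [QuotientAddGroup.eq, AddSubgroup.mem_bot, neg_add_eq_zero]

theorem kk_bot (X : Ω → G) : kk w X ⊥ = kap w X := by
  unfold kk kap
  have h1 : Hg w (fun ω => (X ω : G ⧸ (⊥ : AddSubgroup G))) = Hg w X := hh_bot X
  rw [h1]
  congr 1
  refine Hg_congr fun p q => ?_
  change ((X p.1 - X p.2 : G) : G ⧸ (⊥ : AddSubgroup G)) = ((X q.1 - X q.2 : G)) ↔ _
  rw [QuotientAddGroup.eq, AddSubgroup.mem_bot, neg_add_eq_zero]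

/-- comparison of the entropy modulo `2 M` with the entropy modulo the two-torsion -/
theorem two_compare (hw : Law w) (X : Ω → G) (P M : AddSubgroup G) (hPM : P ≤ M) :
    hh w X (P ⊔ M.map (dbl G)) + hh w X (M ⊓ P.comap (dbl G)) ≤
      hh w X P + hh w X M + 3 * kk w X P := by
  have hl := law_prod hw hw
  have s1 : Hg (prod w w) (fun p => ((X p.1 : G ⧸ P), (((X p.2 : G ⧸ P) + (X p.2 : G ⧸ P)),
        (X p.2 : G ⧸ M)))) +
      Hg (prod w w) (fun p => (X p.1 : G ⧸ (P ⊔ M.map (dbl G)))) ≤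
      Hg (prod w w) (fun p => ((X p.1 : G ⧸ P) - ((X p.2 : G ⧸ P) + (X p.2 : G ⧸ P)),
        (X p.2 : G ⧸ M))) +
      Hg (prod w w) (fun p => (X p.1 : G ⧸ P)) := by
    refine Hg_sub_of hl ?_ ?_ ?_
    · intro p q h
      simp only [Prod.mk.injEq] at h
      obtain ⟨h1, h2⟩ := h
      rw [QuotientAddGroup.eq] at h2
      have h3 : ((X p.1 - (X p.2 + X p.2) : G) : G ⧸ P) = ((X q.1 - (X q.2 + X q.2) : G)) := h1
      rw [QuotientAddGroup.eq] at h3
      rw [QuotientAddGroup.eq]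
      have h4 : dbl G (-X p.2 + X q.2) ∈ M.map (dbl G) := AddSubgroup.mem_map_of_mem _ h2
      rw [dbl_apply] at h4
      have h5 : -X p.1 + X q.1 = (-(X p.1 - (X p.2 + X p.2)) + (X q.1 - (X q.2 + X q.2))) +
          ((-X p.2 + X q.2) + (-X p.2 + X q.2)) := by abel
      rw [h5]
      exact AddSubgroup.add_mem_sup h3 h4
    · intro p q h
      rw [QuotientAddGroup.eq] at h ⊢
      exact AddSubgroup.mem_sup_left h
    · intro p q h3 h4
      simp only [Prod.mk.injEq] at h3 ⊢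
      obtain ⟨h5, h6⟩ := h3
      rw [h4] at h5
      exact ⟨h4, sub_right_inj.1 h5, h6⟩
  have s2 := Hg_add_of hl
    (X := fun p : Ω × Ω => (X p.1 : G ⧸ P) - ((X p.2 : G ⧸ P) + (X p.2 : G ⧸ P)))
    (Y := fun p : Ω × Ω => (X p.2 : G ⧸ M))
    (W := fun p : Ω × Ω => ((X p.1 : G ⧸ P) - ((X p.2 : G ⧸ P) + (X p.2 : G ⧸ P)),
        (X p.2 : G ⧸ M))) (fun p q h3 h4 => Prod.ext h3 h4)
  have s3 := Hg_dilate hw (fun ω => (X ω : G ⧸ P))
  have s4 : Hg (prod w w) (fun p => (X p.2 : G ⧸ M)) = hh w X M :=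
    Hg_snd hw hw (fun ω => (X ω : G ⧸ M))
  have s5 : Hg (prod w w) (fun p => (X p.1 : G ⧸ P)) = hh w X P :=
    Hg_fst hw hw (fun ω => (X ω : G ⧸ P))
  have s6 : Hg (prod w w) (fun p => (X p.1 : G ⧸ (P ⊔ M.map (dbl G)))) =
      hh w X (P ⊔ M.map (dbl G)) :=
    Hg_fst hw hw (fun ω => (X ω : G ⧸ (P ⊔ M.map (dbl G))))
  have s7 : Hg (prod w w) (fun p => ((X p.1 : G ⧸ P), (((X p.2 : G ⧸ P) + (X p.2 : G ⧸ P)),
        (X p.2 : G ⧸ M)))) = hh w X P + hh w X (M ⊓ P.comap (dbl G)) := by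
    rw [Hg_prod hw hw (fun ω => (X ω : G ⧸ P))
      (fun ω => (((X ω : G ⧸ P) + (X ω : G ⧸ P)), (X ω : G ⧸ M)))]
    congr 1
    refine Hg_congr fun ω ω' => ?_
    rw [QuotientAddGroup.eq, AddSubgroup.mem_inf, AddSubgroup.mem_comap, dbl_apply,
      Prod.mk.injEq]
    have h1 : ((X ω : G ⧸ P) + (X ω : G ⧸ P) = (X ω' : G ⧸ P) + (X ω' : G ⧸ P)) ↔
        -(X ω + X ω) + (X ω' + X ω') ∈ P := by
      rw [← QuotientAddGroup.eq]
      rfl
    rw [h1, QuotientAddGroup.eq]
    have h2 : -X ω + X ω' + (-X ω + X ω') = -(X ω + X ω) + (X ω' + X ω') := by abel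
    rw [h2]
    exact and_comm
  have s8 : hh w X P = Hg w (fun ω => (X ω : G ⧸ P)) := rfl
  have s9 : kk w X P = kap w (fun ω => (X ω : G ⧸ P)) := rfl
  linarith

/-- a finitely generated group modulo a subgroup containing all doubles is finite -/
theorem relIndex_ne_zero {N M : AddSubgroup G} (hM : M.FG) (h2 : ∀ x ∈ M, x + x ∈ N) :
    N.relIndex M ≠ 0 := by
  have h1 : AddGroup.FG M := (AddGroup.fg_iff_addSubgroup_fg M).2 hM
  have h3 : AddGroup.FG (M ⧸ N.addSubgroupOf M) := inferInstance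
  have h4 : Finite (M ⧸ N.addSubgroupOf M) := by
    refine @AddCommGroup.finite_of_fg_isAddTorsion _ _ h3 ?_
    intro x
    rw [isOfFinAddOrder_iff_nsmul_eq_zero]
    refine ⟨2, by norm_num, ?_⟩
    obtain ⟨y, rfl⟩ := QuotientAddGroup.mk_surjective x
    rw [two_nsmul, ← QuotientAddGroup.mk_add, QuotientAddGroup.eq_zero_iff,
      AddSubgroup.mem_addSubgroupOf]
    exact h2 y y.2
  exact Nat.card_pos.ne'

/-- differences of values -/
noncomputable def diffs (X : Ω → G) : Finset G :=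
  Finset.univ.image (fun p : Ω × Ω => -X p.1 + X p.2)

theorem mem_diffs (X : Ω → G) (ω ω' : Ω) : -X ω + X ω' ∈ diffs X :=
  Finset.mem_image.2 ⟨(ω, ω'), Finset.mem_univ _, rfl⟩

/-- the part of `L` generated by differences of values of `X` -/
noncomputable def red (X : Ω → G) (L : AddSubgroup G) : AddSubgroup G :=
  AddSubgroup.closure ((diffs X).filter (fun x => x ∈ L) : Set G)

theorem red_le (X : Ω → G) (L : AddSubgroup G) : red X L ≤ L := by
  unfold red
  rw [AddSubgroup.closure_le]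
  intro x hx
  exact (Finset.mem_filter.1 (Finset.mem_coe.1 hx)).2

theorem mem_red (X : Ω → G) (L : AddSubgroup G) {ω ω' : Ω} (h : -X ω + X ω' ∈ L) :
    -X ω + X ω' ∈ red X L :=
  AddSubgroup.subset_closure (Finset.mem_coe.2 (Finset.mem_filter.2 ⟨mem_diffs X ω ω', h⟩))

theorem hh_red (X : Ω → G) (L : AddSubgroup G) : hh w X (red X L) = hh w X L := by
  refine Hg_congr fun ω ω' => ?_
  rw [QuotientAddGroup.eq, QuotientAddGroup.eq]
  exact ⟨fun h => red_le X L h, fun h => mem_red X L h⟩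

theorem red_fg (X : Ω → G) (L : AddSubgroup G) : (red X L).FG := ⟨_, rfl⟩

/-- minimal good subgroup -/
theorem exists_min_good (hw : Law w) (X : Ω → G) :
    ∃ M : AddSubgroup G, M.FG ∧ hh w X M ≤ 92 * kk w X M ∧
      ∀ L ≤ M, hh w X L ≤ 92 * kk w X L → L = M := by
  set S : Set ℕ := {n | ∃ L : AddSubgroup G, hh w X L ≤ 92 * kk w X L ∧
    ((diffs X).filter (fun x => x ∈ L)).card = n} with hS
  have hne : S.Nonempty := by
    refine ⟨_, ⊤, ?_, rfl⟩
    have h1 : hh w X ⊤ = 0 := Hg_const hw _ (fun ω ω' => by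
      rw [QuotientAddGroup.eq]
      exact AddSubgroup.mem_top _)
    have h2 := kk_nonneg hw X ⊤
    rw [h1]
    linarith
  obtain ⟨L, hL, hLn⟩ := Nat.sInf_mem hne
  refine ⟨red X L, red_fg X L, ?_, ?_⟩
  · rw [hh_red]
    have := kk_anti hw X (red_le X L)
    linarith
  · intro L' hL' hgood
    have h1 : sInf S ≤ ((diffs X).filter (fun x => x ∈ L')).card := Nat.sInf_le ⟨L', hgood, rfl⟩
    rw [← hLn] at h1
    have hsub : (diffs X).filter (fun x => x ∈ L') ⊆ (diffs X).filter (fun x => x ∈ L) := by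
      intro x hx
      rw [Finset.mem_filter] at hx ⊢
      exact ⟨hx.1, red_le X L (hL' hx.2)⟩
    have heq := Finset.eq_of_subset_of_card_le hsub h1
    refine le_antisymm hL' ?_
    unfold red
    rw [← heq, AddSubgroup.closure_le]
    intro x hx
    exact (Finset.mem_filter.1 (Finset.mem_coe.1 hx)).2

/-- **Entropic weak Marton theorem.** -/
theorem exists_pair (hw : Law w) (X : Ω → G) :
    ∃ M P : AddSubgroup G, P ≤ M ∧ M.FG ∧ Finite P ∧ (∀ x ∈ P, ∃ k : ℕ, (2 ^ k) • x = 0) ∧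
      hh w X M ≤ 92 * kap w X ∧
      Real.log (Nat.card P) + hh w X P ≤ Hg w X + 92 * kap w X ∧
      (P ⊔ M.map (dbl G)).relIndex M ≠ 0 ∧
      Real.log ((P ⊔ M.map (dbl G)).relIndex M) ≤ 147 / 2 * kap w X := by
  obtain ⟨M, hMfg, hMgood, hMmin⟩ := exists_min_good hw X
  -- maximal `P`
  set S : Set ℕ := {n | ∃ P : AddSubgroup G, P ≤ M ∧ Finite P ∧
    (∀ x ∈ P, ∃ k : ℕ, (2 ^ k) • x = 0) ∧
    Real.log (Nat.card P) + hh w X P ≤ Hg w X + 92 * (kap w X - kk w X P) ∧
    Nat.card P = n} with hS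
  have hne : S.Nonempty := by
    refine ⟨_, ⊥, bot_le, inferInstance, ?_, ?_, rfl⟩
    · intro x hx
      rw [AddSubgroup.mem_bot] at hx
      exact ⟨0, by rw [hx, smul_zero]⟩
    · rw [hh_bot, kk_bot, AddSubgroup.card_bot, Nat.cast_one, Real.log_one]
      linarith
  have hbdd : BddAbove S := by
    refine ⟨⌊Real.exp (Hg w X + 92 * kap w X)⌋₊, ?_⟩
    rintro n ⟨P, hP1, hP2, hP3, hP4, rfl⟩
    have hpos : (0 : ℝ) < Nat.card P := by exact_mod_cast Nat.card_pos
    apply Nat.le_floor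
    rw [← Real.log_le_iff_le_exp hpos]
    have h1 := hh_nonneg hw X P
    have h2 := kk_nonneg hw X P
    linarith
  obtain ⟨P, hPM, hPfin, hPtor, hPb, hPn⟩ := Nat.sSup_mem hne hbdd
  have hPmax : ∀ P' : AddSubgroup G, P' ≤ M → Finite P' →
      (∀ x ∈ P', ∃ k : ℕ, (2 ^ k) • x = 0) →
      Real.log (Nat.card P') + hh w X P' ≤ Hg w X + 92 * (kap w X - kk w X P') →
      Nat.card P' ≤ Nat.card P := by
    intro P' h1 h2 h3 h4
    rw [hPn]
    exact le_csSup hbdd ⟨P', h1, h2, h3, h4, rfl⟩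
  -- the two-torsion modulo `P`
  set T := M ⊓ P.comap (dbl G) with hT
  have hTle : T ≤ M := inf_le_left
  have hTdbl : ∀ x ∈ T, x + x ∈ P := fun x hx => (AddSubgroup.mem_inf.1 hx).2
  set T' := P ⊔ red X T with hT'
  have hPT : P ≤ T := by
    intro x hx
    exact AddSubgroup.mem_inf.2 ⟨hPM hx, P.add_mem hx hx⟩
  have hT'T : T' ≤ T := sup_le hPT (red_le X T)
  have hT'fg : T'.FG := by
    have hPfg : P.FG := by
      rw [← AddGroup.fg_iff_addSubgroup_fg]
      exact AddGroup.fg_of_finite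
    exact hPfg.sup (red_fg X T)
  have hhT' : hh w X T' = hh w X T := by
    refine le_antisymm ?_ (hh_anti hw X hT'T)
    rw [← hh_red X T]
    exact hh_anti hw X le_sup_right
  have hT'2 : ∀ x ∈ T', x + x ∈ P := fun x hx => hTdbl x (hT'T hx)
  have hT'ne := relIndex_ne_zero hT'fg hT'2
  obtain ⟨Q, hQ1, hQ2, hQ3, hQ4, hQ5⟩ := iter_down hw X hT'2 (P.relIndex T') T' le_sup_left
    (le_refl _) hT'ne (le_refl _)
  have hQcard : Nat.card P * P.relIndex Q = Nat.card Q := by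
    have h1 := AddSubgroup.relIndex_mul_relIndex ⊥ P Q bot_le hQ1
    rw [AddSubgroup.relIndex_bot_left, AddSubgroup.relIndex_bot_left] at h1
    exact h1
  have hrne : P.relIndex Q ≠ 0 := by
    intro h
    have h1 := AddSubgroup.relIndex_mul_relIndex P Q T' hQ1 hQ2
    rw [h, zero_mul] at h1
    exact hT'ne h1.symm
  have hPpos : 0 < Nat.card P := Nat.card_pos
  have hQfin : Finite Q := Nat.finite_of_card_ne_zero (by
    rw [← hQcard]
    exact mul_ne_zero hPpos.ne' hrne)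
  have hQle := hPmax Q ((hQ2.trans hT'T).trans hTle) hQfin (by
    intro x hx
    obtain ⟨k, hk⟩ := hPtor _ (hT'2 x (hQ2 hx))
    refine ⟨k + 1, ?_⟩
    rw [pow_succ, mul_smul, two_smul]
    exact hk) (by
    have h1 : Real.log (Nat.card Q) = Real.log (Nat.card P) + Real.log (P.relIndex Q) := by
      rw [← hQcard, Nat.cast_mul, Real.log_mul (by exact_mod_cast hPpos.ne')
        (by exact_mod_cast hrne)]
    rw [h1]
    linarith)
  have hQP : Q = P := by
    have h1 : P.relIndex Q = 1 := by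
      rw [← hQcard] at hQle
      have h2 : P.relIndex Q ≤ 1 := by
        by_contra h
        push Not at h
        have : Nat.card P * 2 ≤ Nat.card P * P.relIndex Q := Nat.mul_le_mul_left _ h
        omega
      omega
    rw [AddSubgroup.relIndex_eq_one] at h1
    exact le_antisymm h1 hQ1
  rw [hQP, hhT'] at hQ5
  -- the quotient by `2 M`
  have hNM : P ⊔ M.map (dbl G) ≤ M := by
    refine sup_le hPM ?_
    intro x hx
    obtain ⟨y, hy, rfl⟩ := AddSubgroup.mem_map.1 hx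
    exact M.add_mem hy hy
  have hN2 : ∀ x ∈ M, x + x ∈ P ⊔ M.map (dbl G) := fun x hx =>
    AddSubgroup.mem_sup_right (AddSubgroup.mem_map_of_mem (dbl G) hx)
  have hNne := relIndex_ne_zero hMfg hN2
  obtain ⟨R, hR1, hR2, hR3, hR4⟩ := iter_up hw X hN2 ((P ⊔ M.map (dbl G)).relIndex M)
    (P ⊔ M.map (dbl G)) (le_refl _) hNM hNne (le_refl _)
  have hRM : R = M := hMmin R hR2 (by linarith)
  rw [hRM] at hR4
  have hcmp := two_compare hw X P M hPM
  have hkP := kk_le hw X P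
  have hkM := kk_le hw X M
  have hkP0 := kk_nonneg hw X P
  have hkT0 := kk_nonneg hw X T'
  refine ⟨M, P, hPM, hMfg, hPfin, hPtor, by linarith, by linarith, hNne, ?_⟩
  rw [← hT] at hcmp
  linarith

end H137.Weak
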