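import Pool.Agent.H137R2.Weak.Unif
set_option autoImplicit false

/-! The set is almost periodic modulo `P`. -/

open scoped Classical Pointwise
set_option linter.unusedSectionVars false
set_option linter.unusedVariables false

namespace H137.Weak

open H137.PFR H137.TwoPow

variable {Γ : Type*} [AddCommGroup Γ]

theorem fib_le (A : Finset Γ) (P : AddSubgroup Γ) [Finite P] (a : Γ) :
    (fib A P a).card ≤ Nat.card P := by
  have : Fintype P := Fintype.ofFinite P
  rw [Nat.card_eq_fintype_card, ← Finset.card_univ]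
  refine Finset.card_le_card_of_surjOn (fun p : P => a + (p : Γ)) ?_
  intro x hx
  have h := (mem_fib.1 (Finset.mem_coe.1 hx)).2
  exact ⟨⟨-a + x, h⟩, Finset.mem_coe.2 (Finset.mem_univ _), by simp⟩

theorem markov {A : Finset Γ} (hA : A.Nonempty) (P : AddSubgroup Γ) [Finite P] {L : ℝ}
    (hL0 : 0 ≤ L) (hL : Real.log (Nat.card P) + hh (uw A) (fun ω : A => (ω : Γ)) P ≤
      Real.log A.card + L) :
    (A.card : ℝ) ≤ 2 * (A.filter (fun a => Real.log (Nat.card P) -
      Real.log (fib A P a).card ≤ 2 * L)).card := by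
  have hc : (0 : ℝ) < A.card := by exact_mod_cast hA.card_pos
  set f : Γ → ℝ := fun a => Real.log (Nat.card P) - Real.log (fib A P a).card with hf
  have hf0 : ∀ a ∈ A, 0 ≤ f a := by
    intro a ha
    have h1 : (0 : ℝ) < (fib A P a).card := by exact_mod_cast fib_pos ha
    have h2 : ((fib A P a).card : ℝ) ≤ Nat.card P := by exact_mod_cast fib_le A P a
    have := Real.log_le_log h1 h2
    simp only [hf]
    linarith
  have hsum : ∑ a ∈ A, (A.card : ℝ)⁻¹ * f a ≤ L := by
    have h1 : ∑ a ∈ A, (A.card : ℝ)⁻¹ * f a =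
        ∑ a ∈ A, ((A.card : ℝ)⁻¹ * (Real.log A.card - Real.log (fib A P a).card) +
          (A.card : ℝ)⁻¹ * (Real.log (Nat.card P) - Real.log A.card)) := by
      refine Finset.sum_congr rfl fun a _ => ?_
      simp only [hf]
      ring
    rw [h1, Finset.sum_add_distrib, ← hh_uw hA, Finset.sum_const, nsmul_eq_mul, ← mul_assoc,
      mul_inv_cancel₀ hc.ne', one_mul]
    linarith
  by_contra hcon
  push Not at hcon
  have hsplit := Finset.card_filter_add_card_filter_not (s := A) (fun a => f a ≤ 2 * L)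
  have hbad : (A.card : ℝ) < 2 * (A.filter (fun a => ¬ f a ≤ 2 * L)).card := by
    have h1 : ((A.filter (fun a => f a ≤ 2 * L)).card : ℝ) +
        (A.filter (fun a => ¬ f a ≤ 2 * L)).card = A.card := by exact_mod_cast hsplit
    have h2 : 2 * ((A.filter (fun a => f a ≤ 2 * L)).card : ℝ) < A.card := hcon
    linarith
  have h1 : ∑ a ∈ A.filter (fun a => ¬ f a ≤ 2 * L), (A.card : ℝ)⁻¹ * f a ≤
      ∑ a ∈ A, (A.card : ℝ)⁻¹ * f a :=
    Finset.sum_le_sum_of_subset_of_nonneg (Finset.filter_subset _ _)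
      (fun a ha _ => mul_nonneg (by positivity) (hf0 a ha))
  have hne : (A.filter (fun a => ¬ f a ≤ 2 * L)).Nonempty := by
    rw [← Finset.card_pos]
    by_contra h
    have h2 : (A.filter (fun a => ¬ f a ≤ 2 * L)).card = 0 := by omega
    rw [h2] at hbad
    simp at hbad
    linarith
  have h2 : ∑ a ∈ A.filter (fun a => ¬ f a ≤ 2 * L), (A.card : ℝ)⁻¹ * (2 * L) <
      ∑ a ∈ A.filter (fun a => ¬ f a ≤ 2 * L), (A.card : ℝ)⁻¹ * f a := by
    refine Finset.sum_lt_sum_of_nonempty hne fun a ha => ?_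
    have h3 := (Finset.mem_filter.1 ha).2
    push Not at h3
    exact mul_lt_mul_of_pos_left h3 (by positivity)
  rw [Finset.sum_const, nsmul_eq_mul] at h2
  have h3 : L ≤ ((A.filter (fun a => ¬ f a ≤ 2 * L)).card : ℝ) * ((A.card : ℝ)⁻¹ * (2 * L)) := by
    have h4 : (A.card : ℝ) * L ≤ 2 * (A.filter (fun a => ¬ f a ≤ 2 * L)).card * L :=
      mul_le_mul_of_nonneg_right hbad.le hL0
    have h5 : ((A.filter (fun a => ¬ f a ≤ 2 * L)).card : ℝ) * ((A.card : ℝ)⁻¹ * (2 * L)) =
        (2 * (A.filter (fun a => ¬ f a ≤ 2 * L)).card * L) / A.card := by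
      field_simp
    rw [h5, le_div_iff₀ hc]
    linarith
  linarith

theorem neg_add_mem_comm (P : AddSubgroup Γ) (x y : Γ) : -x + y ∈ P ↔ -y + x ∈ P := by
  have h : -(-x + y) = -y + x := by abel
  rw [← h, P.neg_mem_iff]

theorem few_cosets {A B : Finset Γ} (hBA : B ⊆ A) (P : AddSubgroup Γ) [Finite P] {L : ℝ}
    (hB : ∀ a ∈ B, Real.log (Nat.card P) - Real.log (fib A P a).card ≤ L) (PF : Finset Γ)
    (hPF : ∀ x, x ∈ PF ↔ x ∈ P) : ((B + PF).card : ℝ) ≤ Real.exp L * A.card := by
  have hPpos : (0 : ℝ) < Nat.card P := by exact_mod_cast Nat.card_pos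
  have h1 : ∀ x ∈ B + PF, (Nat.card P : ℝ) ≤ Real.exp L * (fib A P x).card := by
    intro x hx
    obtain ⟨b, hb, p, hp, rfl⟩ := Finset.mem_add.1 hx
    have hpP := (hPF p).1 hp
    have h2 : fib A P (b + p) = fib A P b := by
      ext y
      rw [mem_fib, mem_fib]
      have h3 : -(b + p) + y = (-b + y) - p := by abel
      rw [h3]
      constructor
      · rintro ⟨h4, h5⟩
        refine ⟨h4, ?_⟩
        have := P.add_mem h5 hpP
        rwa [sub_add_cancel] at this
      · rintro ⟨h4, h5⟩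
        exact ⟨h4, P.sub_mem h5 hpP⟩
    rw [h2]
    have h4 : (0 : ℝ) < (fib A P b).card := by exact_mod_cast fib_pos (hBA hb)
    have h5 := hB b hb
    have h6 : Real.log (Nat.card P) ≤ L + Real.log (fib A P b).card := by linarith
    have h7 := Real.exp_le_exp.2 h6
    rw [Real.exp_log hPpos, Real.exp_add, Real.exp_log h4] at h7
    exact h7
  have h2 : ∑ x ∈ B + PF, (fib A P x).card ≤ A.card * Nat.card P := by
    have h3 : ∑ x ∈ B + PF, (fib A P x).card =
        ∑ x ∈ B + PF, ∑ y ∈ A, (if -x + y ∈ P then 1 else 0) := by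
      refine Finset.sum_congr rfl fun x _ => ?_
      unfold fib
      rw [Finset.card_filter]
    rw [h3, Finset.sum_comm]
    have h4 : ∀ y ∈ A, ∑ x ∈ B + PF, (if -x + y ∈ P then 1 else 0) ≤ Nat.card P := by
      intro y _
      rw [← Finset.card_filter]
      have h5 : (B + PF).filter (fun x => -x + y ∈ P) = fib (B + PF) P y := by
        unfold fib
        exact Finset.filter_congr fun x _ => neg_add_mem_comm P x y
      rw [h5]
      exact fib_le _ P y
    calc ∑ y ∈ A, ∑ x ∈ B + PF, (if -x + y ∈ P then 1 else 0) ≤ ∑ y ∈ A, Nat.card P :=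
          Finset.sum_le_sum h4
      _ = A.card * Nat.card P := by rw [Finset.sum_const, smul_eq_mul]
  have h3 : ((B + PF).card : ℝ) * Nat.card P ≤ Real.exp L * A.card * Nat.card P := by
    calc ((B + PF).card : ℝ) * Nat.card P = ∑ x ∈ B + PF, (Nat.card P : ℝ) := by
          rw [Finset.sum_const, nsmul_eq_mul]
      _ ≤ ∑ x ∈ B + PF, Real.exp L * (fib A P x).card := Finset.sum_le_sum h1
      _ = Real.exp L * ((∑ x ∈ B + PF, (fib A P x).card : ℕ) : ℝ) := by
          rw [← Finset.mul_sum, Nat.cast_sum]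
      _ ≤ Real.exp L * ((A.card * Nat.card P : ℕ) : ℝ) := by
          apply mul_le_mul_of_nonneg_left _ (Real.exp_pos _).le
          exact_mod_cast h2
      _ = _ := by push_cast; ring
  exact le_of_mul_le_mul_right h3 hPpos

/-- `A` is almost periodic modulo `P` -/
theorem periodic {A : Finset Γ} (hA : A.Nonempty) {K : ℝ} (hK1 : 1 ≤ K)
    (hK : ((A + A).card : ℝ) ≤ K * A.card) (P : AddSubgroup Γ) [Finite P] {L : ℝ}
    (hL0 : 0 ≤ L) (hL : Real.log (Nat.card P) + hh (uw A) (fun ω : A => (ω : Γ)) P ≤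
      Real.log A.card + L) (PF : Finset Γ) (hPF : ∀ x, x ∈ PF ↔ x ∈ P) :
    ((A + PF).card : ℝ) ≤ 2 * K ^ 2 * Real.exp (2 * L) * A.card := by
  have hc : (0 : ℝ) < A.card := by exact_mod_cast hA.card_pos
  have hm := markov hA P hL0 hL
  set B := A.filter (fun a => Real.log (Nat.card P) - Real.log (fib A P a).card ≤ 2 * L) with hB
  have hBA : B ⊆ A := Finset.filter_subset _ _
  have h1 := few_cosets hBA P (L := 2 * L) (fun a ha => (Finset.mem_filter.1 ha).2) PF hPF
  have hBpos : (0 : ℝ) < B.card := by linarith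
  have h2 := Finset.ruzsa_triangle_inequality_add_sub_add A B PF
  have h3 : (B.card : ℝ) * (A + PF).card ≤ (B - A).card * (B + PF).card := by exact_mod_cast h2
  have h4 : ((B - A).card : ℝ) ≤ K ^ 2 * A.card := by
    have h5 : (B - A).card ≤ (A - A).card := Finset.card_le_card (Finset.sub_subset_sub_right hBA)
    have h6 : ((B - A).card : ℝ) ≤ (A - A).card := by exact_mod_cast h5
    refine h6.trans ?_
    have h7 := Finset.ruzsa_triangle_inequality_sub_add_add A A A
    have h8 : ((A - A).card : ℝ) * A.card ≤ (A + A).card * (A + A).card := by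
      exact_mod_cast h7
    have h9 : ((A + A).card : ℝ) * (A + A).card ≤ (K * A.card) * (K * A.card) :=
      mul_le_mul hK hK (by positivity) (by positivity)
    have h10 : ((A - A).card : ℝ) * A.card ≤ (K ^ 2 * A.card) * A.card := by
      nlinarith
    exact le_of_mul_le_mul_right h10 hc
  have h5 : (B.card : ℝ) * (A + PF).card ≤ (K ^ 2 * A.card) * (Real.exp (2 * L) * A.card) :=
    h3.trans (mul_le_mul h4 h1 (by positivity) (by positivity))
  have h6 : (A.card : ℝ) * (A + PF).card ≤ (2 * B.card) * (A + PF).card :=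
    mul_le_mul_of_nonneg_right hm (by positivity)
  have h7 : (A.card : ℝ) * (A + PF).card ≤
      (A.card : ℝ) * (2 * K ^ 2 * Real.exp (2 * L) * A.card) := by
    calc (A.card : ℝ) * (A + PF).card ≤ (2 * B.card) * (A + PF).card := h6
      _ = 2 * ((B.card : ℝ) * (A + PF).card) := by ring
      _ ≤ 2 * ((K ^ 2 * A.card) * (Real.exp (2 * L) * A.card)) := by linarith
      _ = _ := by ring
  exact le_of_mul_le_mul_left h7 hc

end H137.Weak
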