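import Pool.Agent.H137R2.Weak.Rank
import Pool.Agent.H137R2.TwoPow.Comb
set_option autoImplicit false

/-! Uniform random variables on finite sets in arbitrary abelian groups. -/

open scoped Classical Pointwise
set_option linter.unusedSectionVars false
set_option linter.unusedVariables false

namespace H137.Weak

open H137.PFR H137.TwoPow

theorem Hg_le_log_card {Ω α : Type*} [Fintype Ω] {w : Ω → ℝ} (hw : Law w) (Y : Ω → α)
    (S : Finset α) (h : ∀ ω, Y ω ∈ S) : Hg w Y ≤ Real.log S.card := by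
  have h7 : Hg w Y = Hg w (fun ω => (⟨Y ω, h ω⟩ : S)) := by
    refine Hg_congr fun ω ω' => ?_
    rw [Subtype.ext_iff]
  rw [h7, Hg_eq_H]
  have h8 := ent_le_log_card (law_push hw (fun ω => (⟨Y ω, h ω⟩ : S)))
    Finset.univ (fun x hx => absurd (Finset.mem_univ x) hx)
  rw [Finset.card_univ, Fintype.card_coe] at h8
  exact h8

variable {Γ : Type*} [AddCommGroup Γ]

/-- uniform weights -/
noncomputable def uw (A : Finset Γ) : A → ℝ := fun _ => (A.card : ℝ)⁻¹

theorem law_uw {A : Finset Γ} (hA : A.Nonempty) : Law (uw A) := by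
  have hc : (0 : ℝ) < A.card := by exact_mod_cast hA.card_pos
  refine ⟨fun x => by unfold uw; positivity, ?_⟩
  unfold uw
  rw [Finset.sum_const, Finset.card_univ, Fintype.card_coe, nsmul_eq_mul, mul_inv_cancel₀ hc.ne']

/-- the part of `A` in the coset of `a` -/
noncomputable def fib (A : Finset Γ) (N : AddSubgroup Γ) (a : Γ) : Finset Γ :=
  A.filter (fun x => -a + x ∈ N)

theorem mem_fib {A : Finset Γ} {N : AddSubgroup Γ} {a x : Γ} :
    x ∈ fib A N a ↔ x ∈ A ∧ -a + x ∈ N := Finset.mem_filter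

theorem push_uw (A : Finset Γ) (N : AddSubgroup Γ) (a : Γ) :
    push (uw A) (fun ω : A => ((ω : Γ) : Γ ⧸ N)) ((a : Γ) : Γ ⧸ N) =
      (fib A N a).card / A.card := by
  have h1 : push (uw A) (fun ω : A => ((ω : Γ) : Γ ⧸ N)) ((a : Γ) : Γ ⧸ N) =
      ∑ x ∈ A, (if -a + x ∈ N then (A.card : ℝ)⁻¹ else 0) := by
    unfold push uw
    rw [← Finset.sum_coe_sort A (fun x => if -a + x ∈ N then (A.card : ℝ)⁻¹ else 0)]
    refine Finset.sum_congr rfl fun ω _ => ?_
    by_cases h : -a + (ω : Γ) ∈ N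
    · rw [if_pos h, if_pos]
      rw [eq_comm, QuotientAddGroup.eq]
      exact h
    · rw [if_neg h, if_neg]
      intro h2
      rw [eq_comm, QuotientAddGroup.eq] at h2
      exact h h2
  rw [h1, ← Finset.sum_filter, Finset.sum_const, nsmul_eq_mul]
  rfl

theorem fib_pos {A : Finset Γ} {N : AddSubgroup Γ} {a : Γ} (ha : a ∈ A) :
    0 < (fib A N a).card := by
  rw [Finset.card_pos]
  exact ⟨a, mem_fib.2 ⟨ha, by rw [neg_add_cancel]; exact N.zero_mem⟩⟩

theorem hh_uw {A : Finset Γ} (hA : A.Nonempty) (N : AddSubgroup Γ) :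
    hh (uw A) (fun ω : A => (ω : Γ)) N =
      ∑ a ∈ A, (A.card : ℝ)⁻¹ * (Real.log A.card - Real.log (fib A N a).card) := by
  have hc : (0 : ℝ) < A.card := by exact_mod_cast hA.card_pos
  unfold hh Hg
  rw [← Finset.sum_coe_sort A
    (fun a => (A.card : ℝ)⁻¹ * (Real.log A.card - Real.log (fib A N a).card))]
  refine Finset.sum_congr rfl fun ω _ => ?_
  rw [push_uw]
  have h1 : (0 : ℝ) < (fib A N (ω : Γ)).card := by exact_mod_cast fib_pos ω.2
  rw [Real.log_div h1.ne' hc.ne']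
  unfold uw
  ring

theorem Hg_uw {A : Finset Γ} (hA : A.Nonempty) :
    Hg (uw A) (fun ω : A => (ω : Γ)) = Real.log A.card := by
  have hc : (0 : ℝ) < A.card := by exact_mod_cast hA.card_pos
  rw [← hh_bot, hh_uw hA]
  have h1 : ∀ a ∈ A, (A.card : ℝ)⁻¹ * (Real.log A.card -
      Real.log (fib A (⊥ : AddSubgroup Γ) a).card) = (A.card : ℝ)⁻¹ * Real.log A.card := by
    intro a ha
    have h2 : fib A (⊥ : AddSubgroup Γ) a = {a} := by
      ext x
      rw [mem_fib, AddSubgroup.mem_bot, neg_add_eq_zero, Finset.mem_singleton]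
      constructor
      · intro h
        exact h.2.symm
      · rintro rfl
        exact ⟨ha, rfl⟩
    rw [h2, Finset.card_singleton, Nat.cast_one, Real.log_one, sub_zero]
  rw [Finset.sum_congr rfl h1, Finset.sum_const, nsmul_eq_mul, ← mul_assoc,
    mul_inv_cancel₀ hc.ne', one_mul]

theorem kap_uw {A : Finset Γ} (hA : A.Nonempty) {K : ℝ} (hK1 : 1 ≤ K)
    (hK : ((A + A).card : ℝ) ≤ K * A.card) :
    kap (uw A) (fun ω : A => (ω : Γ)) ≤ 2 * Real.log K := by
  have hc : (0 : ℝ) < A.card := by exact_mod_cast hA.card_pos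
  have hl := law_prod (law_uw hA) (law_uw hA)
  have h1 := Hg_le_log_card hl (fun p : A × A => (p.1 : Γ) - (p.2 : Γ)) (A - A)
    (fun p => Finset.sub_mem_sub p.1.2 p.2.2)
  have h2 : ((A - A).card : ℝ) ≤ K ^ 2 * A.card := by
    have h3 := Finset.ruzsa_triangle_inequality_sub_add_add A A A
    have h4 : ((A - A).card : ℝ) * A.card ≤ (A + A).card * (A + A).card := by
      exact_mod_cast h3
    have h5 : ((A + A).card : ℝ) * (A + A).card ≤ (K * A.card) * (K * A.card) :=
      mul_le_mul hK hK (by positivity) (by positivity)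
    have h6 : ((A - A).card : ℝ) * A.card ≤ (K ^ 2 * A.card) * A.card := by
      nlinarith
    exact le_of_mul_le_mul_right h6 hc
  have h3 : (0 : ℝ) < (A - A).card := by
    exact_mod_cast (hA.sub hA).card_pos
  have h4 := Real.log_le_log h3 h2
  rw [Real.log_mul (by positivity) hc.ne', Real.log_pow] at h4
  push_cast at h4
  unfold kap
  rw [Hg_uw hA]
  linarith

/-- a popular coset -/
theorem exists_popular {A : Finset Γ} (hA : A.Nonempty) (N : AddSubgroup Γ) :
    ∃ a ∈ A, Real.exp (-hh (uw A) (fun ω : A => (ω : Γ)) N) * A.card ≤ (fib A N a).card := by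
  have hc : (0 : ℝ) < A.card := by exact_mod_cast hA.card_pos
  by_contra hcon
  push Not at hcon
  have h1 : ∀ a ∈ A, hh (uw A) (fun ω : A => (ω : Γ)) N <
      Real.log A.card - Real.log (fib A N a).card := by
    intro a ha
    have h2 : (0 : ℝ) < (fib A N a).card := by exact_mod_cast fib_pos ha
    have h3 := Real.log_lt_log h2 (hcon a ha)
    rw [Real.log_mul (Real.exp_pos _).ne' hc.ne', Real.log_exp] at h3
    linarith
  have h2 : ∑ a ∈ A, (A.card : ℝ)⁻¹ * hh (uw A) (fun ω : A => (ω : Γ)) N <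
      ∑ a ∈ A, (A.card : ℝ)⁻¹ * (Real.log A.card - Real.log (fib A N a).card) :=
    Finset.sum_lt_sum_of_nonempty hA fun a ha => mul_lt_mul_of_pos_left (h1 a ha) (by positivity)
  rw [← hh_uw hA, Finset.sum_const, nsmul_eq_mul, ← mul_assoc, mul_inv_cancel₀ hc.ne',
    one_mul] at h2
  exact lt_irrefl _ h2

/-- covering by cosets -/
theorem cover_cosets {A : Finset Γ} (hA : A.Nonempty) {K h : ℝ} (hK0 : 0 < K)
    (hK : ((A + A).card : ℝ) ≤ K * A.card) (N : AddSubgroup Γ)
    (hh' : hh (uw A) (fun ω : A => (ω : Γ)) N ≤ h) :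
    ∃ T : Finset Γ, T ⊆ A ∧ (T.card : ℝ) ≤ K * Real.exp h ∧ ∀ a ∈ A, ∃ t ∈ T, a - t ∈ N := by
  obtain ⟨a₀, ha₀, hpop⟩ := exists_popular hA N
  have hpos : (0 : ℝ) < (fib A N a₀).card := by exact_mod_cast fib_pos ha₀
  have hne : (fib A N a₀).Nonempty := Finset.card_pos.1 (fib_pos ha₀)
  have h3 : (A.card : ℝ) ≤ Real.exp h * (fib A N a₀).card := by
    have h4 : Real.exp (-h) * A.card ≤ (fib A N a₀).card :=
      le_trans (mul_le_mul_of_nonneg_right (Real.exp_le_exp.2 (by linarith)) (by positivity)) hpop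
    have h5 : Real.exp h * (Real.exp (-h) * A.card) ≤ Real.exp h * (fib A N a₀).card :=
      mul_le_mul_of_nonneg_left h4 (Real.exp_pos _).le
    rw [← mul_assoc, ← Real.exp_add, add_neg_cancel, Real.exp_zero, one_mul] at h5
    exact h5
  have hAB : ((A + fib A N a₀).card : ℝ) ≤ (K * Real.exp h) * (fib A N a₀).card := by
    have h1 : (A + fib A N a₀).card ≤ (A + A).card :=
      Finset.card_le_card (Finset.add_subset_add_left (Finset.filter_subset _ _))
    have h2 : ((A + fib A N a₀).card : ℝ) ≤ (A + A).card := by exact_mod_cast h1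
    calc ((A + fib A N a₀).card : ℝ) ≤ K * A.card := h2.trans hK
      _ ≤ K * (Real.exp h * (fib A N a₀).card) := mul_le_mul_of_nonneg_left h3 hK0.le
      _ = _ := by ring
  obtain ⟨F, hFA, hF, hAF⟩ := Finset.ruzsa_covering_add hne hAB
  refine ⟨F, hFA, hF, ?_⟩
  intro a ha
  obtain ⟨t, ht, b, hb, rfl⟩ := Finset.mem_add.1 (hAF ha)
  refine ⟨t, ht, ?_⟩
  rw [add_sub_cancel_left]
  obtain ⟨b1, hb1, b2, hb2, rfl⟩ := Finset.mem_sub.1 hb
  have e1 := (mem_fib.1 hb1).2
  have e2 := (mem_fib.1 hb2).2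
  have e3 : b1 - b2 = (-a₀ + b1) - (-a₀ + b2) := by abel
  rw [e3]
  exact N.sub_mem e1 e2

end H137.Weak
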